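import Pool.Agent.Y427.CP.Main

/-!
The center of the positive part of the quantum affine algebra of type `A_1^(1)`.

For every field `K` and every nonzero `q` in `K` which is not a root of unity, the center of the
algebra with two generators `A`, `A*` and the two cubic `q`-Serre relations is `K 1`.
-/

namespace Pool.Agent.Results.MP_cafee0_al.CenterIsScalars

/-- The scalar `[3]_q = (q ^ 3 - q ^ (-3)) / (q - q ^ (-1))`. -/
def qThree {K : Type*} [Field K] (q : K) : K := (q ^ 3 - q⁻¹ ^ 3) / (q - q⁻¹)

/-- The `q`-Serre expression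
`x ^ 3 y - [3]_q x ^ 2 y x + [3]_q x y x ^ 2 - y x ^ 3` in a `K`-algebra. -/
def qSerre {K : Type*} [Field K] (q : K) {R : Type*} [Ring R] [Algebra K R] (x y : R) : R :=
  x ^ 3 * y - qThree q • (x ^ 2 * y * x) + qThree q • (x * y * x ^ 2) - y * x ^ 3

/-- The two defining relations, on the free algebra on the two symbols `A = ι false` and
`A* = ι true`. -/
inductive SerreRel {K : Type*} [Field K] (q : K) :
    FreeAlgebra K Bool → FreeAlgebra K Bool → Prop
  | first : SerreRel q (qSerre q (FreeAlgebra.ι K false) (FreeAlgebra.ι K true)) 0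
  | second : SerreRel q (qSerre q (FreeAlgebra.ι K true) (FreeAlgebra.ι K false)) 0

/-- The positive part `U_q^+` of the quantum affine algebra of `sl_2`: the quotient of the free
algebra on `A`, `A*` by the two-sided ideal generated by the two `q`-Serre relations. -/
abbrev UPlus {K : Type*} [Field K] (q : K) := RingQuot (SerreRel q)

open Pool.Agent.Y427.CP in
lemma rel_eq {K : Type*} [Field K] (q : K) (hq0 : q ≠ 0) (hq2 : q ^ 2 ≠ 1) :
    SerreRel q = Pool.Agent.Y427.CP.Rel (q ^ 2) := by
  have h3 : qThree q = q ^ 2 + 1 + (q ^ 2)⁻¹ := by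
    unfold qThree
    have h1 : q - q⁻¹ ≠ 0 := by
      intro h
      apply hq2
      have h2 : q = q⁻¹ := sub_eq_zero.1 h
      calc q ^ 2 = q * q := pow_two q
        _ = q * q⁻¹ := by rw [← h2]
        _ = 1 := mul_inv_cancel₀ hq0
    rw [div_eq_iff h1]
    field_simp
    ring
  have hs : ∀ x y : FreeAlgebra K Bool, qSerre q x y = ser (q ^ 2) x y := by
    intro x y
    unfold qSerre ser
    rw [h3]
    simp only [pow_succ, pow_zero, one_mul, mul_assoc]
  funext a b
  apply propext
  constructor
  · rintro (_ | _)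
    · rw [hs]; exact Pool.Agent.Y427.CP.Rel.mk false
    · rw [hs]; exact Pool.Agent.Y427.CP.Rel.mk true
  · rintro ⟨i⟩
    cases i
    · rw [← hs]; exact SerreRel.first
    · rw [← hs]; exact SerreRel.second

open Pool.Agent.Y427.CP in
/-- **The center of `U_q^+` is `K 1`**, for every field `K` and every nonzero `q` in `K` that is
not a root of unity. -/
theorem result (K : Type*) [Field K] (q : K) (hq0 : q ≠ 0)
    (hq : ∀ n : ℕ, 0 < n → q ^ n ≠ 1) :
    Subalgebra.center K (UPlus q) = ⊥ ∧ Function.Injective (algebraMap K (UPlus q)) := by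
  unfold UPlus
  rw [rel_eq q hq0 (hq 2 (by norm_num))]
  have hp : q ^ 2 ≠ 0 := pow_ne_zero _ hq0
  have h : ∀ n : ℕ, 0 < n → (q ^ 2) ^ n ≠ 1 := by
    intro n hn
    rw [← pow_mul]
    exact hq _ (by omega)
  constructor
  · rw [eq_bot_iff]
    intro z hz
    rw [Subalgebra.mem_center_iff] at hz
    obtain ⟨a, ha⟩ := central_scalar (p := q ^ 2) hp h (z : U (q ^ 2)) (fun i => hz (g (q ^ 2) i))
    rw [Algebra.mem_bot]
    refine ⟨a, ?_⟩
    rw [Algebra.algebraMap_eq_smul_one]
    exact ha.symm
  · let f : U (q ^ 2) →ₐ[K] K := lft (fun _ => 0) (fun i => by simp [ser])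
    intro a b hab
    have h1 : f (algebraMap K (U (q ^ 2)) a) = f (algebraMap K (U (q ^ 2)) b) := congrArg f hab
    rw [AlgHom.commutes, AlgHom.commutes] at h1
    exact h1

end Pool.Agent.Results.MP_cafee0_al.CenterIsScalars
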